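import Pool.Agent.X247.GT.Meas
import Pool.Agent.X247.Gr

/-!
# The estimator can be computed in polynomial time
-/

namespace Pool.Agent.NPC.X247.GT

open Pool.Agent.H633R2 Pool.Agent.X247.GT Nat

/-! ### Rationality -/

/-- the field of the rational numbers inside the reals -/
noncomputable def KQ : Subfield ℝ := (algebraMap ℚ ℝ).fieldRange

theorem natCast_mem (n : ℕ) : (n : ℝ) ∈ KQ := ⟨(n : ℚ), by simp⟩

theorem base_mem {d : ℕ} (x : List (Fin d)) : base x ∈ KQ :=
  KQ.mul_mem (KQ.inv_mem (natCast_mem _)) (KQ.inv_mem (natCast_mem _))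

theorem norm_mem {d : ℕ} (x : List (Fin d)) : goodTuringNorm x ∈ KQ :=
  KQ.mul_mem (base_mem x) (KQ.inv_mem (natCast_mem _))

theorem mu_mem {e : ℕ} (S : ℕ) (x : List (Fin (e + 1))) : mu S x ∈ KQ := by
  unfold mu
  refine KQ.sum_mem fun s _ => KQ.mul_mem (KQ.inv_mem (natCast_mem _)) ?_
  unfold us
  rw [ext_eq]
  exact KQ.sum_mem fun y _ => KQ.mul_mem (norm_mem _) (KQ.pow_mem (KQ.inv_mem (natCast_mem _)) _)

theorem exists_frac {r : ℝ} (hr : r ∈ KQ) (h0 : 0 ≤ r) : ∃ a b : ℕ, 0 < b ∧ r = a / b := by
  obtain ⟨q, rfl⟩ := hr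
  have h0' : (0 : ℝ) ≤ (q : ℝ) := h0
  have hq : 0 ≤ q := by exact_mod_cast h0'
  refine ⟨q.num.toNat, q.den, q.den_pos, ?_⟩
  have h1 : ((q.num.toNat : ℤ) : ℚ) / q.den = q := by
    rw [Int.toNat_of_nonneg (Rat.num_nonneg.2 hq)]
    exact Rat.num_div_den q
  have h2 : ((q.num.toNat : ℕ) : ℝ) / (q.den : ℝ) = ((((q.num.toNat : ℤ) : ℚ) / q.den : ℚ) : ℝ) := by
    push_cast
    rfl
  rw [h2, h1]
  rfl

/-! ### Tables, products and factorials -/

section Poly

variable {α β : Type} [TEnc α] [TEnc β]

/-- look up the first `S` letters in a table -/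
def tab (d : ℕ) : ℕ → (List ℕ → β) → List ℕ → β
  | 0, g, _ => g []
  | _ + 1, g, [] => g []
  | S + 1, g, a :: t => (List.range d).foldr
      (fun k r => if a = k then tab d S (fun u => g (k :: u)) t else r) (g [])

theorem poly_tab (d S : ℕ) (g : List ℕ → β) : Poly (tab d S g) := by
  induction S generalizing g with
  | zero => exact Poly.const _
  | succ S ih =>
    have key : ∀ ks : List ℕ, Poly (fun p : List ℕ × ℕ × List ℕ => ks.foldr
        (fun k r => if p.2.1 = k then tab d S (fun u => g (k :: u)) p.2.2 else r) (g [])) := by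
      intro ks
      induction ks with
      | nil => exact Poly.const _
      | cons k ks ihk =>
        exact Poly.ite (Poly.decide_eq (Poly.fst (Poly.snd Poly.id)) (Poly.const k))
          ((ih _).comp (Poly.snd (Poly.snd Poly.id))) ihk
    refine (Poly.listCases (l := fun x : List ℕ => x) (g := fun _ => g [])
      (h := fun _ a t => (List.range d).foldr
        (fun k r => if a = k then tab d S (fun u => g (k :: u)) t else r) (g []))
      Poly.id (Poly.const _) (key (List.range d))).congr fun x => ?_
    cases x <;> rfl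

theorem foldr_ite (F : ℕ → β) (z : β) (a : ℕ) (ks : List ℕ) (h : a ∈ ks) :
    ks.foldr (fun k r => if a = k then F k else r) z = F a := by
  induction ks with
  | nil => simp at h
  | cons k ks ih =>
    rw [List.foldr_cons]
    by_cases hk : a = k
    · rw [if_pos hk, hk]
    · rw [if_neg hk]
      exact ih ((List.mem_cons.1 h).resolve_left hk)

theorem tab_eq (d S : ℕ) (g : List ℕ → β) (x : List ℕ) (hx : ∀ a ∈ x, a < d) :
    tab d S g x = g (x.take S) := by
  induction S generalizing g x with
  | zero => simp [tab]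
  | succ S ih =>
    cases x with
    | nil => simp [tab]
    | cons a t =>
      rw [tab, foldr_ite (fun k => tab d S (fun u => g (k :: u)) t) _ a _
        (List.mem_range.2 (hx a (by simp)))]
      rw [ih _ t fun b hb => hx b (by simp [hb])]
      rfl

theorem size_mul_le (m n : ℕ) : (m * n).size ≤ m.size + n.size := by
  rw [Nat.size_le, pow_add]
  exact Nat.mul_lt_mul'' (Nat.lt_size_self m) (Nat.lt_size_self n)

theorem size_prod_le (l : List ℕ) : l.prod.size ≤ sz l := by
  induction l with
  | nil => simp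
  | cons x l ih =>
    rw [List.prod_cons]
    have h1 := size_mul_le x l.prod
    have h2 := size_le_sz x
    simp only [sz_list_cons]
    omega

theorem poly_listProd {l : α → List ℕ} (hl : Poly l) : Poly (fun a => (l a).prod) := by
  obtain ⟨r, hr⟩ := hl.sz_le
  refine (Poly.foldl (s := fun _ => 1) (F := fun _ s b => s * b) hl (Poly.const 1)
    (Poly.mul (Poly.fst (Poly.snd Poly.id)) (Poly.snd (Poly.snd Poly.id)))
    (Polynomial.C 4 * r + Polynomial.C 1) ?_).congr fun a => ?_
  · intro a k _
    have e : ((l a).take k).foldl (fun s b => s * b) 1 = ((l a).take k).prod :=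
      (List.prod_eq_foldl).symm
    rw [e]
    have h1 := sz_nat_le ((l a).take k).prod
    have h2 := size_prod_le ((l a).take k)
    have h3 := Poly.sz_take_le (l a) k
    have h4 := hr a
    simp only [Polynomial.eval_add, Polynomial.eval_mul, Polynomial.eval_C]
    omega
  · exact (List.prod_eq_foldl).symm

theorem poly_fact {n : α → ℕ} (hn : UPoly n) : Poly (fun a => (n a)!) := by
  have h1 : Poly (fun a => ((List.range (n a)).map fun i => i + 1).prod) :=
    poly_listProd (Poly.map (F := fun _ i => i + 1) hn.range (Poly.succ (Poly.snd Poly.id)))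
  refine h1.congr fun a => ?_
  generalize n a = m
  induction m with
  | zero => rfl
  | succ m ih =>
    rw [List.range_succ, List.map_append, List.prod_append, ih, Nat.factorial_succ]
    simp [mul_comm]

theorem polyFun_of_poly {f : α → β} (hf : Poly f) : PolyFun f := by
  obtain ⟨M, h, p, _, hM⟩ := FptTime.of_poly (κ := fun _ => 0) hf
  refine ⟨M, Polynomial.C (h 0) * p, fun a => ?_⟩
  simpa using hM a

end Poly

/-! ### The computation -/

section

variable {e : ℕ}

/-- the list of letters as a string over the alphabet -/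
def toX (u : List ℕ) : List (Fin (e + 1)) := u.map fun a => ⟨min a e, by omega⟩

theorem toX_map (x : List (Fin (e + 1))) : (toX (x.map Fin.val) : List (Fin (e + 1))) = x := by
  unfold toX
  rw [List.map_map]
  conv_rhs => rw [← List.map_id x]
  refine List.map_congr_left fun a _ => Fin.ext ?_
  have := a.2
  simp only [Function.comp, _root_.id]
  omega

theorem mu_eq (S : ℕ) (x : List (Fin (e + 1))) :
    mu S x = mu S (x.take S) * (((e + 1 : ℕ) : ℝ)) ^ (x.take S).length /
      (((e + 1 : ℕ) : ℝ)) ^ x.length := by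
  have hd : (((e + 1 : ℕ) : ℝ)) ≠ 0 := by positivity
  by_cases h : x.length ≤ S
  · rw [List.take_of_length_le h, mul_div_assoc, div_self (pow_ne_zero _ hd), mul_one]
  · have hl : (x.take S).length = S := by simp; omega
    rw [hl]
    unfold mu
    rw [Finset.sum_mul, Finset.sum_div]
    refine Finset.sum_congr rfl fun s hs => ?_
    rw [Finset.mem_range] at hs
    have h1 : us s x = goodTuringNorm (x.take s) * (((e + 1 : ℕ) : ℝ)⁻¹) ^ (x.length - s) := by
      unfold us
      rw [show s - x.length = 0 by omega]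
      rfl
    have h2 : us s (x.take S) = goodTuringNorm (x.take s) *
        (((e + 1 : ℕ) : ℝ)⁻¹) ^ (S - s) := by
      unfold us
      rw [hl, show s - S = 0 by omega]
      change goodTuringNorm ((x.take S).take s) *
        (((e + 1 : ℕ) : ℝ)⁻¹) ^ ((x.take S).length - s) = _
      rw [hl, List.take_take, min_eq_left (by omega)]
    rw [h1, h2, inv_pow, inv_pow]
    have h3 : (((e + 1 : ℕ) : ℝ)) ^ x.length = (((e + 1 : ℕ) : ℝ)) ^ (x.length - s) *
        (((e + 1 : ℕ) : ℝ)) ^ s := by rw [← pow_add]; congr 1; omega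
    have h4 : (((e + 1 : ℕ) : ℝ)) ^ S = (((e + 1 : ℕ) : ℝ)) ^ (S - s) *
        (((e + 1 : ℕ) : ℝ)) ^ s := by rw [← pow_add]; congr 1; omega
    rw [h3, h4]
    have h5 := pow_ne_zero (x.length - s) hd
    have h6 := pow_ne_zero (S - s) hd
    have h7 := pow_ne_zero s hd
    field_simp

/-- the computation -/
def alg (e S : ℕ) (ga gb : List ℕ → ℕ) (P Q : ℕ) (p : List ℕ × List Unit) : ℕ × ℕ :=
  (tab (e + 1) S ga p.1 * (Q * (p.1.length + e)!) +
      (P * ((e)! * ((List.range (e + 1)).map fun i => (p.1.count i)!).prod)) *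
        (tab (e + 1) S gb p.1 * (p.1.map fun _ => e + 1).prod),
    (tab (e + 1) S gb p.1 * (p.1.map fun _ => e + 1).prod) * (Q * (p.1.length + e)!))

theorem poly_alg (S : ℕ) (ga gb : List ℕ → ℕ) (P Q : ℕ) : Poly (alg e S ga gb P Q) := by
  have hx : Poly (fun p : List ℕ × List Unit => p.1) := Poly.fst Poly.id
  have h1 : Poly (fun p : List ℕ × List Unit => tab (e + 1) S ga p.1) := (poly_tab _ _ _).comp hx
  have h2 : Poly (fun p : List ℕ × List Unit => tab (e + 1) S gb p.1) := (poly_tab _ _ _).comp hx
  have h3 : Poly (fun p : List ℕ × List Unit => (p.1.map fun _ => e + 1).prod) :=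
    poly_listProd (Poly.map (F := fun _ _ => e + 1) hx (Poly.const _))
  have h4 : Poly (fun p : List ℕ × List Unit => (p.1.length + e)!) :=
    poly_fact (UPoly.add (UPoly.length hx) (UPoly.const e))
  have h5 : Poly (fun p : List ℕ × List Unit =>
      ((List.range (e + 1)).map fun i => (p.1.count i)!).prod) := by
    refine poly_listProd (Poly.map (l := fun _ : List ℕ × List Unit => List.range (e + 1))
      (F := fun p i => (p.1.count i)!) (Poly.const _) ?_)
    refine poly_fact (n := fun q : (List ℕ × List Unit) × ℕ => q.1.1.count q.2) ?_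
    refine (UPoly.length (l := fun q : (List ℕ × List Unit) × ℕ =>
      q.1.1.filter fun a => decide (a = q.2)) (Poly.filter (l := fun q :
        (List ℕ × List Unit) × ℕ => q.1.1) (p := fun q a => decide (a = q.2))
        (Poly.fst (Poly.fst Poly.id)) (Poly.decide_eq (Poly.snd Poly.id)
          (Poly.snd (Poly.fst Poly.id))))).congr fun q => ?_
    congr 1
    exact (List.count_eq_length_filter (a := q.2) (l := q.1.1)).symm
  have h6 := Poly.mul (Poly.const (α := List ℕ × List Unit) Q) h4
  exact Poly.pair (Poly.add (Poly.mul h1 h6) (Poly.mul (Poly.mul (Poly.const P)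
    (Poly.mul (Poly.const _) h5)) (Poly.mul h2 h3))) (Poly.mul (Poly.mul h2 h3) h6)

/-- The estimator is polynomial-time computable. -/
theorem computable (S : ℕ) : PolyComputable (qt S : List (Fin (e + 1)) → ℝ) := by
  have hT : ∀ u : List (Fin (e + 1)), ∃ a b : ℕ, 0 < b ∧
      mu S u * (((e + 1 : ℕ) : ℝ)) ^ u.length = a / b := fun u =>
    exists_frac (KQ.mul_mem (mu_mem S u) (KQ.pow_mem (natCast_mem _) _))
      (mul_nonneg (mu_nonneg S u) (by positivity))
  choose ta tb htb hab using hT
  have hrest : (1 : ℝ) - mu S ([] : List (Fin (e + 1))) ∈ KQ :=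
    KQ.sub_mem KQ.one_mem (mu_mem S _)
  have hrest0 : (0 : ℝ) ≤ 1 - mu S ([] : List (Fin (e + 1))) :=
    le_trans (by positivity) (rest_ge S)
  obtain ⟨P, Q, hQ, hPQ⟩ := exists_frac hrest hrest0
  refine ⟨alg e S (fun u => ta (toX u)) (fun u => tb (toX u)) P Q,
    polyFun_of_poly (poly_alg S _ _ P Q), fun x j => ?_⟩
  have hlt : ∀ a ∈ x.map Fin.val, a < e + 1 := by
    intro a ha
    obtain ⟨b, _, rfl⟩ := List.mem_map.1 ha
    exact b.2
  have htake : (toX ((x.map Fin.val).take S) : List (Fin (e + 1))) = x.take S := by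
    rw [← List.map_take, toX_map]
  have hD : ((x.map Fin.val).map fun _ => e + 1).prod = (e + 1) ^ x.length := by
    rw [List.map_map]
    change (x.map fun _ => e + 1).prod = _
    rw [List.map_const', List.prod_replicate]
  have hcount : ((List.range (e + 1)).map fun i => ((x.map Fin.val).count i)!).prod =
      ∏ i : Fin (e + 1), (x.count i)! := by
    have h1 : ∀ i : Fin (e + 1), (x.map Fin.val).count (i : ℕ) = x.count i := fun i =>
      List.count_map_of_injective _ _ Fin.val_injective _
    rw [← List.prod_ofFn]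
    congr 1
    refine List.ext_getElem (by simp) fun i h2 h3 => ?_
    simp only [List.getElem_map, List.getElem_range, List.getElem_ofFn]
    rw [← h1]
  have hB : (0 : ℝ) < ((tb (x.take S) : ℕ) : ℝ) := by exact_mod_cast htb _
  have hDr : (0 : ℝ) < (((e + 1 : ℕ) : ℝ)) ^ x.length := by positivity
  have hQr : (0 : ℝ) < (Q : ℝ) := by exact_mod_cast hQ
  have hF : (0 : ℝ) < (((x.length + e)! : ℕ) : ℝ) := by exact_mod_cast Nat.factorial_pos _
  have hval : (((alg e S (fun u => ta (toX u)) (fun u => tb (toX u)) P Q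
      (x.map Fin.val, List.replicate j ())).1 : ℕ) : ℝ) / (((alg e S (fun u => ta (toX u))
      (fun u => tb (toX u)) P Q (x.map Fin.val, List.replicate j ())).2 : ℕ) : ℝ) = qt S x := by
    unfold alg
    simp only [tab_eq _ _ _ _ hlt, htake, hD, hcount, List.length_map]
    unfold qt
    rw [mu_eq S x, hab (x.take S), hPQ]
    unfold lap
    push_cast
    push_cast at hDr
    field_simp
  constructor
  · have h1 : 0 < (tb (x.take S) * (e + 1) ^ x.length) * (Q * (x.length + e)!) :=
      Nat.mul_pos (Nat.mul_pos (htb _) (by positivity)) (Nat.mul_pos hQ (Nat.factorial_pos _))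
    unfold alg
    simp only [tab_eq _ _ _ _ hlt, htake, hD, List.length_map]
    exact h1
  · rw [hval, div_self (qt_pos S x).ne', sub_self, abs_zero]
    positivity

end

end Pool.Agent.NPC.X247.GT
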