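import Pool.Agent.H633R2.FptDefs

/-!
# The triple uniform Good-Turing estimator and online estimators
-/

namespace Pool.Agent.X247.GT

open Finset Pool.Agent.NPC Pool.Agent.H633R2

/-- `m_r`: the number of symbols that occur exactly `r` times in `x`. -/
def occ {d : ℕ} (x : List (Fin d)) (r : ℕ) : ℕ :=
  (univ.filter (fun i : Fin d => x.count i = r)).card

/-- The inverse of the product of the multinomial coefficients of the numbers of occurrences of
the symbols in `x` and of the numbers `m_0, ..., m_n`. -/
noncomputable def base {d : ℕ} (x : List (Fin d)) : ℝ :=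
  ((Nat.multinomial univ (fun i : Fin d => x.count i) : ℕ) : ℝ)⁻¹ *
    ((Nat.multinomial (range (x.length + 1)) (occ x) : ℕ) : ℝ)⁻¹

/-- The triple uniform Good-Turing estimator, with the number `Part(n)` of all partitions. -/
noncomputable def goodTuring {d : ℕ} (x : List (Fin d)) : ℝ :=
  base x * ((Fintype.card (Nat.Partition x.length) : ℕ) : ℝ)⁻¹

/-- The number of partitions of `n` with at most `d` parts. -/
def part (d n : ℕ) : ℕ :=
  (univ.filter (fun p : Nat.Partition n => p.parts.card ≤ d)).card

/-- The normalised triple uniform Good-Turing estimator, in which the number of all partitions is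
replaced by the number of the partitions with at most `d` parts. -/
noncomputable def goodTuringNorm {d : ℕ} (x : List (Fin d)) : ℝ :=
  base x * ((part d x.length : ℕ) : ℝ)⁻¹

/-- Time-consistent estimators. -/
def TimeConsistent {d : ℕ} (q : List (Fin d) → ℝ) : Prop :=
  (∀ x, 0 ≤ q x ∧ q x ≤ 1) ∧ q [] = 1 ∧ ∀ x, q x = ∑ a, q (x ++ [a])

/-- The regret of `q` against `p` on strings of length `n` is (finite and) at most `c`. -/
def RegretLe {d : ℕ} (q p : List (Fin d) → ℝ) (n : ℕ) (c : ℝ) : Prop :=
  ∀ x : List (Fin d), x.length = n → 0 < q x ∧ Real.log (p x / q x) ≤ c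

/-- Some Turing machine computes `f` (on the codes of the arguments) in polynomial time. -/
def PolyFun {α β : Type} [TEnc α] [TEnc β] (f : α → β) : Prop :=
  ∃ (M : Turing.TM2ComputableAux Bool Bool) (p : Polynomial ℕ),
    ∀ a, TmRuns M (bits a) (bits (f a)) (p.eval (bits a).length)

/-- `q` is polynomial-time computable: from the string `x` and `j` in unary a Turing machine
computes in polynomial time a numerator and a nonzero denominator of a rational number whose
relative distance to `q x` is at most `2 ^ (-j)`. -/
def PolyComputable {d : ℕ} (q : List (Fin d) → ℝ) : Prop :=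
  ∃ A : List ℕ × List Unit → ℕ × ℕ, PolyFun A ∧ ∀ (x : List (Fin d)) (j : ℕ),
    0 < (A (x.map Fin.val, List.replicate j ())).2 ∧
    |((A (x.map Fin.val, List.replicate j ())).1 : ℝ) /
      ((A (x.map Fin.val, List.replicate j ())).2 : ℝ) / q x - 1| ≤ (2⁻¹ : ℝ) ^ j

end Pool.Agent.X247.GT
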