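import Pool.Agent.X247.GT.Defs

/-!
# Counting for the Good-Turing estimator
-/

namespace Pool.Agent.X247.GT

open Finset Nat

/-- numbers of occurrences -/
def cnt {I J : Type} [Fintype I] [DecidableEq J] (f : I → J) (j : J) : ℕ :=
  (univ.filter (fun i => f i = j)).card

section

variable {I J : Type} [Fintype I] [DecidableEq I] [Fintype J] [DecidableEq J]

/-- The number of functions with given numbers of occurrences. -/
theorem fib_card (A : Finset (I → J)) (f₀ : I → J) (hA : ∀ f ∈ A, cnt f = cnt f₀) :
    A.card * ∏ j, (cnt f₀ j)! ≤ (Fintype.card I)! := by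
  classical
  have hstab := DomMulAct.stabilizer_card f₀
  have hc : ∀ (f : I → J) j, Fintype.card {i // f i = j} = cnt f j := fun f j =>
    Fintype.card_subtype _
  simp only [hc] at hstab
  have hex : ∀ f : I → J, ∃ σ : Equiv.Perm I, f ∈ A → f₀ ∘ σ = f := by
    intro f
    by_cases hf : f ∈ A
    · have e : ∀ j, Nonempty ({i // f i = j} ≃ {i // f₀ i = j}) := fun j =>
        ⟨Fintype.equivOfCardEq (by rw [hc, hc, hA f hf])⟩
      let e' := fun j => (e j).some
      refine ⟨(Equiv.sigmaFiberEquiv f).symm.trans ((Equiv.sigmaCongrRight e').trans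
        (Equiv.sigmaFiberEquiv f₀)), fun _ => ?_⟩
      funext i
      exact (e' (f i) ⟨i, rfl⟩).2
    · exact ⟨1, fun h => absurd h hf⟩
  choose σ hσ using hex
  rw [← hstab, ← Fintype.card_perm, ← Finset.card_univ, ← Finset.card_univ,
    ← Finset.card_product]
  refine Finset.card_le_card_of_injOn
    (fun p : (I → J) × {g : Equiv.Perm I // f₀ ∘ g = f₀} => (σ p.1).trans p.2.1) ?_ ?_
  · intro p _
    exact Finset.mem_coe.2 (Finset.mem_univ _)
  · rintro ⟨f, g, hg⟩ hp ⟨f', g', hg'⟩ hp' h
    simp only [Finset.coe_product, Set.mem_prod, Finset.mem_coe] at hp hp'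
    simp only at h
    have h1 : f = f' := by
      have e1 : f₀ ∘ ((σ f).trans g) = f := by
        funext i
        have : f₀ (g (σ f i)) = f₀ (σ f i) := congrFun hg (σ f i)
        change f₀ (g (σ f i)) = f i
        rw [this]
        exact congrFun (hσ f hp.1) i
      have e2 : f₀ ∘ ((σ f').trans g') = f' := by
        funext i
        have : f₀ (g' (σ f' i)) = f₀ (σ f' i) := congrFun hg' (σ f' i)
        change f₀ (g' (σ f' i)) = f' i
        rw [this]
        exact congrFun (hσ f' hp'.1) i
      rw [← e1, ← e2, h]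
    subst h1
    have h2 : g = g' := by
      ext i
      have := congrArg (fun τ : Equiv.Perm I => τ ((σ f).symm i)) h
      simpa using this
    subst h2
    rfl

/-- Weighted sums over functions. -/
theorem weight_sum (A : Finset (I → J)) (G : (J → ℕ) → ℝ) (hG : ∀ c, 0 ≤ G c) :
    ∑ f ∈ A, G (cnt f) * (((∏ j, (cnt f j)! : ℕ) : ℝ) / ((Fintype.card I)! : ℝ)) ≤
      ∑ c ∈ A.image cnt, G c := by
  classical
  rw [← Finset.sum_fiberwise_of_maps_to (g := cnt) (t := A.image cnt)
    (fun f hf => Finset.mem_image_of_mem _ hf)]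
  refine Finset.sum_le_sum fun c hc => ?_
  obtain ⟨f₀, hf₀, rfl⟩ := Finset.mem_image.1 hc
  have h1 := fib_card (A.filter (fun f => cnt f = cnt f₀)) f₀
    (fun f hf => (Finset.mem_filter.1 hf).2)
  rw [Finset.sum_congr rfl (g := fun _ => G (cnt f₀) *
    (((∏ j, (cnt f₀ j)! : ℕ) : ℝ) / ((Fintype.card I)! : ℝ)))
    (fun f hf => by rw [(Finset.mem_filter.1 hf).2])]
  rw [Finset.sum_const, nsmul_eq_mul]
  have h2 : (0 : ℝ) < ((Fintype.card I)! : ℝ) := by exact_mod_cast Nat.factorial_pos _
  have h3 : (((A.filter (fun f => cnt f = cnt f₀)).card : ℕ) : ℝ) *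
      (((∏ j, (cnt f₀ j)! : ℕ) : ℝ) / ((Fintype.card I)! : ℝ)) ≤ 1 := by
    rw [← mul_div_assoc, div_le_one h2]
    exact_mod_cast h1
  calc _ = G (cnt f₀) * ((((A.filter (fun f => cnt f = cnt f₀)).card : ℕ) : ℝ) *
      (((∏ j, (cnt f₀ j)! : ℕ) : ℝ) / ((Fintype.card I)! : ℝ))) := by ring
    _ ≤ G (cnt f₀) * 1 := mul_le_mul_of_nonneg_left h3 (hG _)
    _ = G (cnt f₀) := mul_one _

end

section

variable {d n : ℕ}

theorem sum_cnt (y : Fin n → Fin d) : ∑ i, cnt y i = n := by
  have h := Finset.card_eq_sum_card_fiberwise (f := y) (s := univ) (t := univ)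
    (fun _ _ => Finset.mem_coe.2 (Finset.mem_univ _))
  rw [Finset.card_univ, Fintype.card_fin] at h
  exact h.symm

theorem cnt_le (y : Fin n → Fin d) (i : Fin d) : cnt y i < n + 1 := by
  have h := Finset.card_le_univ (univ.filter (fun k => y k = i))
  rw [Fintype.card_fin] at h
  exact Nat.lt_succ_of_le h

/-- the numbers of occurrences as elements of `Fin (n + 1)` -/
def cf (y : Fin n → Fin d) (i : Fin d) : Fin (n + 1) := ⟨cnt y i, cnt_le y i⟩

/-- the profiles of partitions -/
def gp (d : ℕ) {n : ℕ} (p : Nat.Partition n) (r : Fin (n + 1)) : ℕ :=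
  if (r : ℕ) = 0 then d - p.parts.card else p.parts.count (r : ℕ)

theorem cnt_cf (y : Fin n → Fin d) :
    ∃ p : Nat.Partition n, p.parts.card ≤ d ∧ cnt (cf y) = gp d p := by
  have hsum : (univ.val.map (cnt y)).sum = n := sum_cnt y
  have hcard : (univ.val.map (cnt y)).card = d := by simp
  have hcount : ∀ r : ℕ, (univ.val.map (cnt y)).count r =
      (univ.filter (fun i => cnt y i = r)).card := by
    intro r
    rw [Multiset.count_map]
    simp only [Finset.card_def, Finset.filter_val, eq_comm]
  refine ⟨Nat.Partition.ofSums n _ hsum, ?_, ?_⟩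
  · calc _ ≤ (univ.val.map (cnt y)).card := Multiset.card_le_card (Multiset.filter_le _ _)
      _ = d := hcard
  · funext r
    have h1 : cnt (cf y) r = (univ.filter (fun i => cnt y i = (r : ℕ))).card := by
      unfold cnt
      congr 1
      ext i
      simp only [Finset.mem_filter, Finset.mem_univ, true_and]
      exact ⟨fun h => congrArg Fin.val h, fun h => Fin.ext h⟩
    rw [h1]
    unfold gp
    split_ifs with h0
    · have h2 := congrArg Multiset.card
        (Multiset.filter_add_not (fun x => x ≠ 0) (univ.val.map (cnt y)))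
      rw [Multiset.card_add, hcard] at h2
      have h3 : (Multiset.filter (fun a => ¬ a ≠ 0) (univ.val.map (cnt y))).card =
          (univ.filter (fun i => cnt y i = (r : ℕ))).card := by
        rw [h0, ← hcount, Multiset.count_eq_card_filter_eq]
        congr 1
        refine Multiset.filter_congr fun x _ => ?_
        rw [not_not, eq_comm]
      have h4 : (Nat.Partition.ofSums n _ hsum).parts =
          Multiset.filter (fun x => x ≠ 0) (univ.val.map (cnt y)) := rfl
      rw [h4, ← h3]
      omega
    · rw [Nat.Partition.count_ofSums_of_ne_zero hsum h0, hcount]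

/-- the number of profiles -/
theorem card_profiles (d n : ℕ) :
    (((univ : Finset (Fin n → Fin d)).image cf).image cnt).card ≤ part d n := by
  unfold part
  have h : ((univ : Finset (Fin n → Fin d)).image cf).image cnt ⊆
      (univ.filter (fun p : Nat.Partition n => p.parts.card ≤ d)).image (gp d) := by
    intro m hm
    simp only [Finset.mem_image, Finset.mem_univ, true_and] at hm
    obtain ⟨_, ⟨y, rfl⟩, rfl⟩ := hm
    obtain ⟨p, hp, h⟩ := cnt_cf y
    rw [h]
    exact Finset.mem_image_of_mem _ (Finset.mem_filter.2 ⟨Finset.mem_univ _, hp⟩)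
  exact (Finset.card_le_card h).trans Finset.card_image_le

/-- the weight of a string in terms of its numbers of occurrences -/
noncomputable def wt (d n : ℕ) (c : Fin d → ℕ) : ℝ :=
  (((∏ r ∈ range (n + 1), ((univ.filter (fun i => c i = r)).card)! : ℕ) : ℝ) / ((d)! : ℝ))

theorem wt_nonneg (d n : ℕ) (c : Fin d → ℕ) : 0 ≤ wt d n c := by
  unfold wt; positivity

theorem wt_cnt (y : Fin n → Fin d) : wt d n (cnt y) =
    (((∏ r, (cnt (cf y) r)! : ℕ) : ℝ) / ((Fintype.card (Fin d))! : ℝ)) := by
  unfold wt
  rw [Fintype.card_fin]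
  congr 2
  rw [← Fin.prod_univ_eq_prod_range (fun r => ((univ.filter (fun i => cnt y i = r)).card)!) (n + 1)]
  refine Finset.prod_congr rfl fun r _ => ?_
  congr 1
  unfold cnt
  congr 1
  ext i
  simp only [Finset.mem_filter, Finset.mem_univ, true_and]
  exact ⟨fun h => Fin.ext h, fun h => congrArg Fin.val h⟩

/-- The total mass. -/
theorem sum_wt (d n : ℕ) : ∑ y : Fin n → Fin d, wt d n (cnt y) *
    (((∏ j, (cnt y j)! : ℕ) : ℝ) / ((n)! : ℝ)) ≤ part d n := by
  classical
  have h1 := weight_sum (univ : Finset (Fin n → Fin d)) (wt d n) (wt_nonneg d n)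
  rw [Fintype.card_fin] at h1
  refine h1.trans ?_
  have h2 : ∑ c ∈ (univ : Finset (Fin n → Fin d)).image cnt, wt d n c =
      ∑ c ∈ (univ : Finset (Fin n → Fin d)).image cf,
        (1 : ℝ) * (((∏ r, (cnt c r)! : ℕ) : ℝ) / ((Fintype.card (Fin d))! : ℝ)) := by
    have hinj : ∀ y y' : Fin n → Fin d, cf y = cf y' ↔ cnt y = cnt y' := by
      intro y y'
      constructor
      · intro h
        funext i
        exact congrArg Fin.val (congrFun h i)
      · intro h
        funext i
        exact Fin.ext (congrFun h i)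
    refine Finset.sum_bij' (fun c _ i => (⟨min (c i) n, by omega⟩ : Fin (n + 1)))
      (fun c _ i => ((c i : Fin (n + 1)) : ℕ)) ?_ ?_ ?_ ?_ ?_
    · intro c hc
      obtain ⟨y, _, rfl⟩ := Finset.mem_image.1 hc
      refine Finset.mem_image.2 ⟨y, Finset.mem_univ _, ?_⟩
      funext i
      refine Fin.ext ?_
      have := cnt_le y i
      change cnt y i = min (cnt y i) n
      omega
    · intro c hc
      obtain ⟨y, _, rfl⟩ := Finset.mem_image.1 hc
      exact Finset.mem_image.2 ⟨y, Finset.mem_univ _, rfl⟩
    · intro c hc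
      obtain ⟨y, _, rfl⟩ := Finset.mem_image.1 hc
      funext i
      have := cnt_le y i
      change min (cnt y i) n = cnt y i
      omega
    · intro c hc
      obtain ⟨y, _, rfl⟩ := Finset.mem_image.1 hc
      funext i
      refine Fin.ext ?_
      have := cnt_le y i
      change min (cnt y i) n = cnt y i
      omega
    · intro c hc
      obtain ⟨y, _, rfl⟩ := Finset.mem_image.1 hc
      rw [one_mul, wt_cnt]
      have e : (fun i => (⟨min (cnt y i) n, by omega⟩ : Fin (n + 1))) = cf y := by
        funext i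
        refine Fin.ext ?_
        have := cnt_le y i
        change min (cnt y i) n = cnt y i
        omega
      rw [e]
  rw [h2]
  refine (weight_sum _ (fun _ => (1 : ℝ)) (fun _ => zero_le_one)).trans ?_
  rw [Finset.sum_const, nsmul_eq_mul, mul_one]
  exact_mod_cast card_profiles d n

/-- The number of vectors of numbers of occurrences. -/
theorem card_cnt (d n : ℕ) : ((univ : Finset (Fin n → Fin d)).image cnt).card ≤
    (d)! * part d n := by
  classical
  have h1 : ((univ : Finset (Fin n → Fin d)).image cnt).card =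
      ((univ : Finset (Fin n → Fin d)).image cf).card := by
    refine Finset.card_bij' (fun c _ i => (⟨min (c i) n, by omega⟩ : Fin (n + 1)))
      (fun c _ i => ((c i : Fin (n + 1)) : ℕ)) ?_ ?_ ?_ ?_
    · intro c hc
      obtain ⟨y, _, rfl⟩ := Finset.mem_image.1 hc
      refine Finset.mem_image.2 ⟨y, Finset.mem_univ _, ?_⟩
      funext i
      refine Fin.ext ?_
      have := cnt_le y i
      change cnt y i = min (cnt y i) n
      omega
    · intro c hc
      obtain ⟨y, _, rfl⟩ := Finset.mem_image.1 hc
      exact Finset.mem_image.2 ⟨y, Finset.mem_univ _, rfl⟩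
    · intro c hc
      obtain ⟨y, _, rfl⟩ := Finset.mem_image.1 hc
      funext i
      have := cnt_le y i
      change min (cnt y i) n = cnt y i
      omega
    · intro c hc
      obtain ⟨y, _, rfl⟩ := Finset.mem_image.1 hc
      funext i
      refine Fin.ext ?_
      have := cnt_le y i
      change min (cnt y i) n = cnt y i
      omega
  rw [h1]
  refine (Finset.card_le_mul_card_image (f := cnt) ((univ : Finset (Fin n → Fin d)).image cf)
    (d)! ?_).trans (Nat.mul_le_mul_left _ (card_profiles d n))
  intro m hm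
  obtain ⟨f₀, _, rfl⟩ := Finset.mem_image.1 hm
  have h2 := fib_card ((((univ : Finset (Fin n → Fin d)).image cf)).filter
    (fun f => cnt f = cnt f₀)) f₀ (fun f hf => (Finset.mem_filter.1 hf).2)
  rw [Fintype.card_fin] at h2
  refine le_trans ?_ h2
  exact Nat.le_mul_of_pos_right _ (Finset.prod_pos fun j _ => Nat.factorial_pos _)

/-- The sum of the inverse multinomial coefficients. -/
theorem sum_inv (d n : ℕ) : ∑ y : Fin n → Fin d,
    (((∏ j, (cnt y j)! : ℕ) : ℝ) / ((n)! : ℝ)) ≤ (d)! * part d n := by
  classical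
  have h1 := weight_sum (univ : Finset (Fin n → Fin d)) (fun _ => (1 : ℝ)) (fun _ => zero_le_one)
  rw [Fintype.card_fin, Finset.sum_const, nsmul_eq_mul, mul_one] at h1
  simp only [one_mul] at h1
  refine h1.trans ?_
  exact_mod_cast card_cnt d n

end

end Pool.Agent.X247.GT
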