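import Pool.Agent.X247.GT.Math

/-!
# The online estimator
-/

namespace Pool.Agent.X247.GT

open Finset Nat

theorem count_ofFn {d n : ℕ} (y : Fin n → Fin d) (a : Fin d) :
    (List.ofFn y).count a = cnt y a := by
  rw [← Multiset.coe_count, ← Fin.univ_val_map, Multiset.count_map]
  unfold cnt
  simp only [Finset.card_def, Finset.filter_val, eq_comm]

theorem inv_multinomial {J : Type} (s : Finset J) (f : J → ℕ) :
    ((Nat.multinomial s f : ℕ) : ℝ)⁻¹ = ((∏ j ∈ s, (f j)! : ℕ) : ℝ) / ((∑ j ∈ s, f j)! : ℝ) := by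
  have h := Nat.multinomial_spec s f
  have h1 : (0 : ℝ) < ((Nat.multinomial s f : ℕ) : ℝ) := by
    exact_mod_cast Nat.multinomial_pos s f
  have h2 : (0 : ℝ) < ((∏ j ∈ s, (f j)! : ℕ) : ℝ) := by
    exact_mod_cast Finset.prod_pos fun j _ => Nat.factorial_pos _
  rw [← h, Nat.cast_mul]
  field_simp

theorem exists_ofFn {d : ℕ} (x : List (Fin d)) : ∃ y : Fin x.length → Fin d, x = List.ofFn y :=
  ⟨x.get, (List.ofFn_get x).symm⟩

theorem base_ofFn {d n : ℕ} (y : Fin n → Fin d) : base (List.ofFn y) =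
    wt d n (cnt y) * (((∏ j, (cnt y j)! : ℕ) : ℝ) / ((n)! : ℝ)) := by
  unfold base
  rw [inv_multinomial, inv_multinomial]
  have h2 : occ (List.ofFn y) = fun r => (univ.filter (fun i => cnt y i = r)).card := by
    funext r
    unfold occ
    simp only [count_ofFn]
  have h3 : ∑ r ∈ range ((List.ofFn y).length + 1),
      (univ.filter (fun i => cnt y i = r)).card = d := by
    rw [List.length_ofFn]
    have := Finset.card_eq_sum_card_fiberwise (f := cnt y) (s := univ) (t := range (n + 1))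
      (fun i _ => Finset.mem_coe.2 (Finset.mem_range.2 (cnt_le y i)))
    rw [Finset.card_univ, Fintype.card_fin] at this
    exact this.symm
  rw [h2, h3]
  simp only [count_ofFn, sum_cnt, List.length_ofFn]
  unfold wt
  ring

/-- sums over extensions -/
noncomputable def ext {d : ℕ} : ℕ → (List (Fin d) → ℝ) → List (Fin d) → ℝ
  | 0, f, x => f x
  | k + 1, f, x => ∑ a, ext k f (x ++ [a])

theorem ext_succ {d : ℕ} (k : ℕ) (f : List (Fin d) → ℝ) (x : List (Fin d)) :
    ext (k + 1) f x = ∑ a, ext k f (x ++ [a]) := rfl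

theorem ext_eq {d : ℕ} (k : ℕ) (f : List (Fin d) → ℝ) : ∀ x,
    ext k f x = ∑ y : Fin k → Fin d, f (x ++ List.ofFn y) := by
  induction k with
  | zero => intro x; simp [ext]
  | succ k ih =>
    intro x
    rw [ext_succ]
    simp only [ih]
    rw [← Fintype.sum_prod_type' (f := fun a y => f (x ++ [a] ++ List.ofFn y))]
    refine Fintype.sum_equiv (Fin.consEquiv (fun _ => Fin d)) _ _ fun p => ?_
    have e : (Fin.consEquiv (fun _ => Fin d)) p = Fin.cons p.1 p.2 := rfl
    rw [e, List.ofFn_cons, List.append_assoc, List.singleton_append]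

theorem ext_nonneg {d : ℕ} {k : ℕ} {f : List (Fin d) → ℝ} (hf : ∀ x, 0 ≤ f x) (x) :
    0 ≤ ext k f x := by
  rw [ext_eq]
  exact Finset.sum_nonneg fun _ _ => hf _

section

variable {e : ℕ}

/-- the part of the estimator belonging to the length `s` -/
noncomputable def us (s : ℕ) (x : List (Fin (e + 1))) : ℝ :=
  ext (s - x.length) (fun z => goodTuringNorm (z.take s) *
    (((e + 1 : ℕ) : ℝ)⁻¹) ^ (z.length - s)) x

theorem base_nonneg {d : ℕ} (x : List (Fin d)) : 0 ≤ base x := by unfold base; positivity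

theorem base_pos {d : ℕ} (x : List (Fin d)) : 0 < base x := by
  unfold base
  have h1 : (0 : ℝ) < ((Nat.multinomial univ (fun i : Fin d => x.count i) : ℕ) : ℝ) := by
    exact_mod_cast Nat.multinomial_pos _ _
  have h2 : (0 : ℝ) < ((Nat.multinomial (range (x.length + 1)) (occ x) : ℕ) : ℝ) := by
    exact_mod_cast Nat.multinomial_pos _ _
  positivity

theorem norm_nonneg {d : ℕ} (x : List (Fin d)) : 0 ≤ goodTuringNorm x := by
  unfold goodTuringNorm
  have := base_nonneg x
  positivity

theorem us_nonneg (s : ℕ) (x : List (Fin (e + 1))) : 0 ≤ us s x := by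
  refine ext_nonneg (fun z => ?_) x
  have := norm_nonneg (z.take s)
  positivity

theorem us_step (s : ℕ) (x : List (Fin (e + 1))) : us s x = ∑ a, us s (x ++ [a]) := by
  have hd : (((e + 1 : ℕ) : ℝ)) ≠ 0 := by positivity
  by_cases h : x.length < s
  · unfold us
    obtain ⟨k, hk⟩ : ∃ k, s - x.length = k + 1 := ⟨s - x.length - 1, by omega⟩
    rw [hk, ext_succ]
    refine Finset.sum_congr rfl fun a _ => ?_
    have : s - (x ++ [a]).length = k := by simp; omega
    rw [this]
  · unfold us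
    have h1 : s - x.length = 0 := by omega
    rw [h1]
    have h2 : ∀ a, s - (x ++ [a]).length = 0 := fun a => by simp; omega
    simp only [h2, ext]
    have h3 : ∀ a : Fin (e + 1), (x ++ [a]).take s = x.take s := fun a => by
      rw [List.take_append_of_le_length (by omega)]
    have h4 : ∀ a : Fin (e + 1), (x ++ [a]).length - s = (x.length - s) + 1 := fun a => by
      simp; omega
    simp only [h3, h4]
    rw [Finset.sum_const, Finset.card_univ, Fintype.card_fin, nsmul_eq_mul, pow_succ]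
    field_simp

theorem us_self (x : List (Fin (e + 1))) : us x.length x = goodTuringNorm x := by
  unfold us
  simp [ext]

theorem us_nil (s : ℕ) : us s ([] : List (Fin (e + 1))) ≤ 1 := by
  unfold us
  rw [List.length_nil, Nat.sub_zero, ext_eq]
  have h1 : ∀ y : Fin s → Fin (e + 1), goodTuringNorm ((([] : List (Fin (e + 1))) ++
      List.ofFn y).take s) * (((e + 1 : ℕ) : ℝ)⁻¹) ^ ((([] : List (Fin (e + 1))) ++
      List.ofFn y).length - s) = (wt (e + 1) s (cnt y) *
        (((∏ j, (cnt y j)! : ℕ) : ℝ) / ((s)! : ℝ))) * ((part (e + 1) s : ℕ) : ℝ)⁻¹ := by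
    intro y
    rw [List.nil_append, List.take_of_length_le (by simp)]
    unfold goodTuringNorm
    rw [base_ofFn, List.length_ofFn, Nat.sub_self, pow_zero, mul_one]
  simp only [h1]
  rw [← Finset.sum_mul]
  have h2 := sum_wt (e + 1) s
  by_cases hP : part (e + 1) s = 0
  · rw [hP]; simp
  · have hP' : (0 : ℝ) < ((part (e + 1) s : ℕ) : ℝ) := by
      exact_mod_cast Nat.pos_of_ne_zero hP
    rw [← div_eq_mul_inv, div_le_one hP']
    exact h2

/-- Laplace's estimator -/
noncomputable def lap (x : List (Fin (e + 1))) : ℝ :=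
  (((e)! * ∏ i, (x.count i)! : ℕ) : ℝ) / (((x.length + e)! : ℕ) : ℝ)

theorem lap_pos (x : List (Fin (e + 1))) : 0 < lap x := by
  unfold lap
  have h1 : 0 < (e)! * ∏ i : Fin (e + 1), (x.count i)! :=
    Nat.mul_pos (Nat.factorial_pos _) (Finset.prod_pos fun _ _ => Nat.factorial_pos _)
  have h2 := Nat.factorial_pos (x.length + e)
  exact div_pos (by exact_mod_cast h1) (by exact_mod_cast h2)

theorem lap_nil : lap ([] : List (Fin (e + 1))) = 1 := by
  unfold lap
  have := Nat.factorial_pos e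
  have h : ((e)! : ℝ) ≠ 0 := by exact_mod_cast this.ne'
  simp [h]

theorem sum_count (x : List (Fin (e + 1))) : ∑ i, x.count i = x.length := by
  obtain ⟨y, hy⟩ := exists_ofFn x
  have h := sum_cnt y
  simp only [← count_ofFn, ← hy] at h
  exact h

theorem lap_step (x : List (Fin (e + 1))) : lap x = ∑ a, lap (x ++ [a]) := by
  have h1 : ∀ a : Fin (e + 1), (∏ i, ((x ++ [a]).count i)!) =
      (x.count a + 1) * ∏ i, (x.count i)! := by
    intro a
    have h2 : ∀ i, ((x ++ [a]).count i)! = (if a = i then x.count i + 1 else 1) *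
        (x.count i)! := by
      intro i
      rw [List.count_append, List.count_singleton]
      by_cases h : a = i
      · simp [h, Nat.factorial_succ]
      · simp [h]
    simp only [h2]
    rw [Finset.prod_mul_distrib, Finset.prod_ite_eq]
    simp
  unfold lap
  simp only [h1, List.length_append, List.length_singleton]
  rw [← Finset.sum_div, ← Nat.cast_sum]
  have h3 : ∑ a, (e)! * ((x.count a + 1) * ∏ i, (x.count i)!) =
      (x.length + 1 + e) * ((e)! * ∏ i, (x.count i)!) := by
    rw [← Finset.mul_sum, ← Finset.sum_mul, Finset.sum_add_distrib, sum_count]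
    simp only [Finset.sum_const, Finset.card_univ, Fintype.card_fin, smul_eq_mul, mul_one]
    ring
  rw [h3]
  have h4 : (x.length + 1 + e)! = (x.length + 1 + e) * (x.length + e)! := by
    rw [show x.length + 1 + e = (x.length + e) + 1 by ring, Nat.factorial_succ]
  rw [h4]
  push_cast
  have h5 : ((x.length : ℝ) + 1 + e) ≠ 0 := by positivity
  have h6 : (((x.length + e)! : ℕ) : ℝ) ≠ 0 := by exact_mod_cast (Nat.factorial_pos _).ne'
  field_simp

theorem lap_sum (n : ℕ) : ∑ y : Fin n → Fin (e + 1), lap (List.ofFn y) = 1 := by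
  have key : ∀ (k : ℕ) (x : List (Fin (e + 1))), ext k lap x = lap x := by
    intro k
    induction k with
    | zero => intro x; rfl
    | succ k ih =>
      intro x
      rw [ext_succ]
      simp only [ih]
      exact (lap_step x).symm
  have h := key n []
  rw [ext_eq, lap_nil] at h
  simpa using h

theorem binom_le (n : ℕ) : (((n + e)! : ℕ) : ℝ) ≤
    ((e)! : ℝ) * ((n)! : ℝ) * (((e + 1)! : ℝ) * ((part (e + 1) n : ℕ) : ℝ)) := by
  have h1 := lap_sum (e := e) n
  have h2 := sum_inv (e + 1) n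
  have hn : (0 : ℝ) < ((n)! : ℝ) := by exact_mod_cast Nat.factorial_pos _
  have he : (0 : ℝ) < ((e)! : ℝ) := by exact_mod_cast Nat.factorial_pos _
  have hne : (0 : ℝ) < (((n + e)! : ℕ) : ℝ) := by exact_mod_cast Nat.factorial_pos _
  have h3 : ∀ y : Fin n → Fin (e + 1), lap (List.ofFn y) =
      (((∏ j, (cnt y j)! : ℕ) : ℝ) / ((n)! : ℝ)) * (((e)! : ℝ) * ((n)! : ℝ) /
        (((n + e)! : ℕ) : ℝ)) := by
    intro y
    unfold lap
    simp only [count_ofFn, List.length_ofFn]
    push_cast
    field_simp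
  simp only [h3] at h1
  rw [← Finset.sum_mul] at h1
  have h4 := mul_le_mul_of_nonneg_right h2 (show 0 ≤ ((e)! : ℝ) * ((n)! : ℝ) /
    (((n + e)! : ℕ) : ℝ) by positivity)
  rw [h1, ← mul_div_assoc, le_div_iff₀ hne, one_mul] at h4
  calc _ ≤ _ := h4
    _ = _ := by ring

theorem part_pos (n : ℕ) : 0 < part (e + 1) n := by
  by_contra h
  have h0 : part (e + 1) n = 0 := by omega
  have h1 := binom_le (e := e) n
  rw [h0] at h1
  simp only [Nat.cast_zero, mul_zero] at h1
  have : (0 : ℝ) < (((n + e)! : ℕ) : ℝ) := by exact_mod_cast Nat.factorial_pos _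
  linarith

/-- For long strings Laplace's estimator is good. -/
theorem lap_ge (x : List (Fin (e + 1))) :
    goodTuringNorm x ≤ ((e + 1)! : ℝ) * lap x := by
  obtain ⟨y, hy⟩ := exists_ofFn x
  have hb := base_ofFn y
  rw [← hy] at hb
  unfold goodTuringNorm lap
  rw [hb]
  have hP : (0 : ℝ) < ((part (e + 1) x.length : ℕ) : ℝ) := by exact_mod_cast part_pos _
  have hn : (0 : ℝ) < ((x.length)! : ℝ) := by exact_mod_cast Nat.factorial_pos _
  have he : (0 : ℝ) < ((e)! : ℝ) := by exact_mod_cast Nat.factorial_pos _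
  have hd : (0 : ℝ) < ((e + 1)! : ℝ) := by exact_mod_cast Nat.factorial_pos _
  have hne : (0 : ℝ) < (((x.length + e)! : ℕ) : ℝ) := by exact_mod_cast Nat.factorial_pos _
  have hbin := binom_le (e := e) x.length
  have hwt : wt (e + 1) x.length (cnt y) ≤ 1 := by
    have h1 := fib_card {cf y} (cf y) (fun f hf => by rw [Finset.mem_singleton.1 hf])
    rw [Finset.card_singleton, one_mul] at h1
    rw [wt_cnt, div_le_one (by exact_mod_cast Nat.factorial_pos _)]
    exact_mod_cast h1
  have hcount : (fun i : Fin (e + 1) => x.count i) = cnt y := by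
    funext i
    have := count_ofFn y i
    rwa [← hy] at this
  have hprod : (∏ i, (x.count i)!) = ∏ j, (cnt y j)! := by
    refine Finset.prod_congr rfl fun i _ => ?_
    rw [show x.count i = cnt y i from congrFun hcount i]
  rw [hprod, Nat.cast_mul (e)!]
  have hQ : (0 : ℝ) ≤ ((∏ j, (cnt y j)! : ℕ) : ℝ) := Nat.cast_nonneg _
  generalize ((∏ j, (cnt y j)! : ℕ) : ℝ) = Q at hQ
  have h1 : wt (e + 1) x.length (cnt y) * (Q / ((x.length)! : ℝ)) *
      ((part (e + 1) x.length : ℕ) : ℝ)⁻¹ ≤ Q / ((x.length)! : ℝ) *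
      ((part (e + 1) x.length : ℕ) : ℝ)⁻¹ := by
    refine mul_le_mul_of_nonneg_right ?_ (by positivity)
    calc _ ≤ 1 * (Q / ((x.length)! : ℝ)) := mul_le_mul_of_nonneg_right hwt (by positivity)
      _ = _ := one_mul _
  refine h1.trans ?_
  rw [← div_eq_mul_inv, div_div, ← mul_div_assoc, div_le_div_iff₀ (by positivity) hne]
  calc Q * (((x.length + e)! : ℕ) : ℝ) ≤ Q * (((e)! : ℝ) * ((x.length)! : ℝ) *
      (((e + 1)! : ℝ) * ((part (e + 1) x.length : ℕ) : ℝ))) :=
        mul_le_mul_of_nonneg_left hbin hQ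
    _ = _ := by ring

/-- the weights -/
noncomputable def ww (s : ℕ) : ℝ := (((s + 1) * (s + 2) : ℕ) : ℝ)⁻¹

theorem ww_sum (S : ℕ) : ∑ s ∈ range (S + 1), ww s = 1 - (((S + 2 : ℕ) : ℝ))⁻¹ := by
  induction S with
  | zero => simp [ww]; norm_num
  | succ S ih =>
    rw [Finset.sum_range_succ, ih]
    unfold ww
    push_cast
    have h1 : (S : ℝ) + 2 ≠ 0 := by positivity
    have h2 : (S : ℝ) + 1 + 2 ≠ 0 := by positivity
    have h3 : (S : ℝ) + 1 + 1 ≠ 0 := by positivity
    field_simp
    ring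

/-- the mixture of the first offline estimators -/
noncomputable def mu (S : ℕ) (x : List (Fin (e + 1))) : ℝ := ∑ s ∈ range (S + 1), ww s * us s x

theorem ww_pos (s : ℕ) : 0 < ww s := by unfold ww; positivity

theorem mu_nonneg (S : ℕ) (x : List (Fin (e + 1))) : 0 ≤ mu S x :=
  Finset.sum_nonneg fun s _ => mul_nonneg (ww_pos s).le (us_nonneg s x)

theorem mu_step (S : ℕ) (x : List (Fin (e + 1))) : mu S x = ∑ a, mu S (x ++ [a]) := by
  unfold mu
  rw [Finset.sum_comm]
  refine Finset.sum_congr rfl fun s _ => ?_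
  rw [← Finset.mul_sum, us_step]

theorem mu_nil (S : ℕ) : mu S ([] : List (Fin (e + 1))) ≤ 1 - (((S + 2 : ℕ) : ℝ))⁻¹ := by
  rw [← ww_sum]
  unfold mu
  refine Finset.sum_le_sum fun s _ => ?_
  calc _ ≤ ww s * 1 := mul_le_mul_of_nonneg_left (us_nil s) (ww_pos s).le
    _ = _ := mul_one _

/-- the estimator -/
noncomputable def qt (S : ℕ) (x : List (Fin (e + 1))) : ℝ :=
  mu S x + (1 - mu S ([] : List (Fin (e + 1)))) * lap x

theorem rest_ge (S : ℕ) : (((S + 2 : ℕ) : ℝ))⁻¹ ≤ 1 - mu S ([] : List (Fin (e + 1))) := by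
  have := mu_nil (e := e) S
  linarith

theorem qt_pos (S : ℕ) (x : List (Fin (e + 1))) : 0 < qt S x := by
  have h1 := mu_nonneg S x
  have h2 := rest_ge (e := e) S
  have h3 : (0 : ℝ) < (((S + 2 : ℕ) : ℝ))⁻¹ := by positivity
  have h4 := mul_pos (h3.trans_le h2) (lap_pos x)
  unfold qt
  linarith

theorem qt_step (S : ℕ) (x : List (Fin (e + 1))) : qt S x = ∑ a, qt S (x ++ [a]) := by
  unfold qt
  rw [Finset.sum_add_distrib, ← Finset.mul_sum, ← mu_step, ← lap_step]

theorem qt_nil (S : ℕ) : qt S ([] : List (Fin (e + 1))) = 1 := by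
  unfold qt
  rw [lap_nil]
  ring

theorem qt_le_one (S : ℕ) (x : List (Fin (e + 1))) : qt S x ≤ 1 := by
  induction x using List.reverseRecOn with
  | nil => rw [qt_nil]
  | append_singleton x a ih =>
    refine le_trans ?_ ih
    rw [qt_step S x]
    exact Finset.single_le_sum (f := fun a => qt S (x ++ [a])) (fun b _ => (qt_pos S _).le)
      (Finset.mem_univ a)

theorem qt_consistent (S : ℕ) : TimeConsistent (qt S : List (Fin (e + 1)) → ℝ) :=
  ⟨fun x => ⟨(qt_pos S x).le, qt_le_one S x⟩, qt_nil S, qt_step S⟩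

/-- The estimator dominates the offline estimators. -/
theorem qt_ge (x : List (Fin (e + 1))) :
    goodTuringNorm x ≤ ((x.length : ℝ) + 2) ^ 2 * qt (e + 1)! x := by
  by_cases h : x.length < (e + 1)! + 1
  · have h1 : ww x.length * us x.length x ≤ mu (e + 1)! x :=
      Finset.single_le_sum (f := fun s => ww s * us s x)
        (fun s _ => mul_nonneg (ww_pos s).le (us_nonneg s x)) (Finset.mem_range.2 h)
    rw [us_self] at h1
    have h2 : mu (e + 1)! x ≤ qt (e + 1)! x := by
      have h3 := rest_ge (e := e) (e + 1)!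
      have h4 : (0 : ℝ) < ((((e + 1)! + 2 : ℕ) : ℝ))⁻¹ := by positivity
      have h5 := mul_pos (h4.trans_le h3) (lap_pos x)
      unfold qt
      linarith
    have h3 := h1.trans h2
    have h4 : (1 : ℝ) ≤ ((x.length : ℝ) + 2) ^ 2 * ww x.length := by
      unfold ww
      rw [← div_eq_mul_inv, le_div_iff₀ (by positivity), one_mul]
      push_cast
      nlinarith [show (0 : ℝ) ≤ (x.length : ℝ) from Nat.cast_nonneg _]
    have h5 := norm_nonneg x
    calc goodTuringNorm x = 1 * goodTuringNorm x := (one_mul _).symm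
      _ ≤ (((x.length : ℝ) + 2) ^ 2 * ww x.length) * goodTuringNorm x :=
        mul_le_mul_of_nonneg_right h4 h5
      _ = ((x.length : ℝ) + 2) ^ 2 * (ww x.length * goodTuringNorm x) := by ring
      _ ≤ _ := mul_le_mul_of_nonneg_left h3 (by positivity)
  · have h1 := lap_ge x
    have h2 := rest_ge (e := e) (e + 1)!
    have h3 := lap_pos x
    have h4 : ((((e + 1)! + 2 : ℕ) : ℝ))⁻¹ * lap x ≤ qt (e + 1)! x := by
      have h5 := mul_le_mul_of_nonneg_right h2 h3.le
      have h6 := mu_nonneg (e + 1)! x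
      unfold qt
      linarith
    have h7 : (((e + 1)! : ℕ) : ℝ) ≤ (x.length : ℝ) := by
      exact_mod_cast (by omega : (e + 1)! ≤ x.length)
    have h8 : (0 : ℝ) ≤ (((e + 1)! : ℕ) : ℝ) := Nat.cast_nonneg _
    have h9 : (((e + 1)! : ℕ) : ℝ) ≤ ((x.length : ℝ) + 2) ^ 2 *
        ((((e + 1)! + 2 : ℕ) : ℝ))⁻¹ := by
      rw [← div_eq_mul_inv, le_div_iff₀ (by positivity)]
      push_cast
      nlinarith
    calc goodTuringNorm x ≤ (((e + 1)! : ℕ) : ℝ) * lap x := h1
      _ ≤ (((x.length : ℝ) + 2) ^ 2 * ((((e + 1)! + 2 : ℕ) : ℝ))⁻¹) * lap x :=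
        mul_le_mul_of_nonneg_right h9 h3.le
      _ = ((x.length : ℝ) + 2) ^ 2 * (((((e + 1)! + 2 : ℕ) : ℝ))⁻¹ * lap x) := by ring
      _ ≤ _ := mul_le_mul_of_nonneg_left h4 (by positivity)

theorem part_le (n : ℕ) : part (e + 1) n ≤ Fintype.card (Nat.Partition n) := by
  unfold part
  exact (Finset.card_filter_le _ _).trans (by rw [Finset.card_univ])

theorem gt_le (x : List (Fin (e + 1))) : goodTuring x ≤ goodTuringNorm x := by
  unfold goodTuring goodTuringNorm
  refine mul_le_mul_of_nonneg_left ?_ (base_nonneg x)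
  have h1 : (0 : ℝ) < ((part (e + 1) x.length : ℕ) : ℝ) := by exact_mod_cast part_pos _
  refine inv_anti₀ h1 ?_
  exact_mod_cast part_le x.length

theorem gt_pos (x : List (Fin (e + 1))) : 0 < goodTuring x := by
  unfold goodTuring
  have h1 : 0 < Fintype.card (Nat.Partition x.length) := lt_of_lt_of_le (part_pos (e := e) _)
    (part_le _)
  have h2 : (0 : ℝ) < ((Fintype.card (Nat.Partition x.length) : ℕ) : ℝ) := by exact_mod_cast h1
  exact mul_pos (base_pos x) (inv_pos.2 h2)

theorem regret (n : ℕ) :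
    RegretLe (qt (e + 1)! : List (Fin (e + 1)) → ℝ) goodTuring n (2 * Real.log ((n : ℝ) + 2)) ∧
    RegretLe (qt (e + 1)! : List (Fin (e + 1)) → ℝ) goodTuringNorm n
      (2 * Real.log ((n : ℝ) + 2)) := by
  have key : ∀ (p : List (Fin (e + 1)) → ℝ) (x : List (Fin (e + 1))), x.length = n →
      0 < p x → p x ≤ goodTuringNorm x →
      Real.log (p x / qt (e + 1)! x) ≤ 2 * Real.log ((n : ℝ) + 2) := by
    intro p x hx hp hle
    have h1 := qt_pos (e + 1)! x
    have h2 := hle.trans (qt_ge x)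
    rw [hx] at h2
    have h3 : p x / qt (e + 1)! x ≤ ((n : ℝ) + 2) ^ 2 := by
      rw [div_le_iff₀ h1]
      exact h2
    have h4 := Real.log_le_log (div_pos hp h1) h3
    rw [Real.log_pow] at h4
    exact_mod_cast h4
  exact ⟨fun x hx => ⟨qt_pos _ x, key goodTuring x hx (gt_pos x) (gt_le x)⟩,
    fun x hx => ⟨qt_pos _ x, key goodTuringNorm x hx ((gt_pos x).trans_le (gt_le x)) le_rfl⟩⟩

end

end Pool.Agent.X247.GT
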